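import Mathlib

/-! Definitions for the Lie exponent of `SL(n, ℝ)`. -/

namespace Pool.Agent.MP_9660fa_lc.H60

/-- The right quotient set `Q(X) = {x x'⁻¹ : x, x' ∈ X}`. -/
def quot {G : Type} [Group G] (X : Set G) : Set G := {q | ∃ x ∈ X, ∃ x' ∈ X, q = x * x'⁻¹}

/-- The triple product property. -/
def TPP {G : Type} [Group G] (S T U : Set G) : Prop :=
  ∀ s ∈ quot S, ∀ t ∈ quot T, ∀ u ∈ quot U, s * t * u = 1 → s = 1 ∧ t = 1 ∧ u = 1

/-- `M` is a nonempty embedded `C^k` submanifold of `E` of dimension `d`: near each of its points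
a `C^k` diffeomorphism between open sets of `E` straightens it to a `d`-dimensional subspace. -/
def IsSubmanifold {E : Type} [NormedAddCommGroup E] [NormedSpace ℝ E] (k : WithTop ℕ∞) (d : ℕ)
    (M : Set E) : Prop :=
  M.Nonempty ∧ ∀ p ∈ M, ∃ (φ : OpenPartialHomeomorph E E) (L : Submodule ℝ E),
    p ∈ φ.source ∧ ContDiffOn ℝ k φ φ.source ∧ ContDiffOn ℝ k φ.symm φ.target ∧
      Module.finrank ℝ L = d ∧ ∀ x ∈ φ.source, x ∈ M ↔ φ x ∈ L

/-- A subset of `SL(n, ℝ)` seen in the space `ℝ^(n × n)` of matrix entries. -/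
def entries {n : ℕ} (M : Set (Matrix.SpecialLinearGroup (Fin n) ℝ)) : Set (Fin n → Fin n → ℝ) :=
  {A | ∃ g ∈ M, ∀ i j, A i j = g i j}

/-- The Lie exponent of `SL(n, ℝ)` (dimension `n ^ 2 - 1`, rank `n - 1`), computed with `C^k`
submanifolds; the infimum of the empty set is `⊤`. -/
noncomputable def lieExponent (k : WithTop ℕ∞) (n : ℕ) : EReal :=
  sInf {w : EReal | ∃ (M₁ M₂ M₃ : Set (Matrix.SpecialLinearGroup (Fin n) ℝ)) (d₁ d₂ d₃ : ℕ),
    IsSubmanifold k d₁ (entries M₁) ∧ IsSubmanifold k d₂ (entries M₂) ∧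
    IsSubmanifold k d₃ (entries M₃) ∧ TPP M₁ M₂ M₃ ∧
    (((n : ℝ) ^ 2 - 1) - (n - 1)) / 2 < ((d₁ : ℝ) + d₂ + d₃) / 3 ∧
    w = (((n : ℝ) - 1) / (((d₁ : ℝ) + d₂ + d₃) / 3 - (((n : ℝ) ^ 2 - 1) - (n - 1)) / 2) : ℝ)}

end Pool.Agent.MP_9660fa_lc.H60
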