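import Mathlib

/-! The algebraic heart of the triple product property. -/

open Matrix Polynomial

namespace Pool.Agent.MP_9660fa_lc.H60

theorem one_le_det_one_add {J K : Type} [Fintype J] [DecidableEq J] [Fintype K]
    (C : Matrix K J ℝ) : 1 ≤ (1 + Cᵀ * C).det := by
  have hN : (Cᵀ * C).PosSemidef := by
    simpa using posSemidef_conjTranspose_mul_self C
  have h1 := congrArg (Polynomial.eval (-1 : ℝ)) hN.1.charpoly_eq
  rw [eval_charpoly, eval_prod] at h1
  have h2 : (scalar J (-1 : ℝ) - Cᵀ * C) = -(1 + Cᵀ * C) := by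
    rw [map_neg, map_one]; abel
  have h3 : ∀ i, Polynomial.eval (-1 : ℝ)
      (X - Polynomial.C (RCLike.ofReal (hN.1.eigenvalues i) : ℝ)) =
      (-1) * (1 + hN.1.eigenvalues i) := by
    intro i; simp; ring
  simp only [h3] at h1
  rw [h2, det_neg, Finset.prod_mul_distrib, Finset.prod_const, Finset.card_univ] at h1
  rw [mul_left_cancel₀ (pow_ne_zero _ (by norm_num)) h1]
  exact Finset.one_le_prod fun i _ => by linarith [hN.eigenvalues_nonneg i]

theorem one_le_det_gram {J K : Type} [Fintype J] [DecidableEq J] [Fintype K]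
    (A : Matrix J J ℝ) (hA : A.det = 1) (B : Matrix K J ℝ) : 1 ≤ (Aᵀ * A + Bᵀ * B).det := by
  have hu : IsUnit A.det := by rw [hA]; exact isUnit_one
  have h : Aᵀ * A + Bᵀ * B = Aᵀ * (1 + (B * A⁻¹)ᵀ * (B * A⁻¹)) * A := by
    have h1 : B * A⁻¹ * A = B := by rw [Matrix.mul_assoc, nonsing_inv_mul A hu, Matrix.mul_one]
    have h2 : Aᵀ * (B * A⁻¹)ᵀ = Bᵀ := by rw [← transpose_mul, h1]
    rw [Matrix.mul_add, Matrix.add_mul, Matrix.mul_one, ← Matrix.mul_assoc, h2,
      Matrix.mul_assoc Bᵀ, h1]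
  rw [h, det_mul, det_mul, det_transpose, hA, one_mul, mul_one]
  exact one_le_det_one_add _

variable {n : ℕ}

theorem initial_prod (b m : Matrix (Fin n) (Fin n) ℝ) (hb : ∀ i j, j < i → b i j = 0)
    (hbp : ∀ i, 0 < b i i) (hm : ∀ i j, i < j → m i j = 0) (hm1 : ∀ i, m i i = 1)
    (h : bᵀ * b = mᵀ * m) (j : Fin n) : 0 ≤ ∑ i with i ≤ j, Real.log (b i i) := by
  have e1 := toBlock_mul_eq_add (fun i => i ≤ j) (fun i => i ≤ j) (fun i => i ≤ j) bᵀ b
  have e2 := toBlock_mul_eq_add (fun i => i ≤ j) (fun i => i ≤ j) (fun i => i ≤ j) mᵀ m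
  have z : b.toBlock (fun i => ¬ i ≤ j) (fun i => i ≤ j) = 0 := by
    ext a c
    exact hb _ _ (lt_of_le_of_lt c.2 (not_le.1 a.2))
  rw [z, Matrix.mul_zero, add_zero, h, e2] at e1
  have hA : (m.toBlock (fun i => i ≤ j) (fun i => i ≤ j)).det = 1 := by
    rw [← det_transpose, det_of_isUpperTriangular]
    · simp [hm1]
    · intro a c hac; exact hm _ _ hac
  have h1 := one_le_det_gram _ hA (m.toBlock (fun i => ¬ i ≤ j) (fun i => i ≤ j))
  have e3 : (m.toBlock (fun i => i ≤ j) (fun i => i ≤ j))ᵀ * m.toBlock (fun i => i ≤ j)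
      (fun i => i ≤ j) + (m.toBlock (fun i => ¬ i ≤ j) (fun i => i ≤ j))ᵀ *
      m.toBlock (fun i => ¬ i ≤ j) (fun i => i ≤ j) =
      (b.toBlock (fun i => i ≤ j) (fun i => i ≤ j))ᵀ * b.toBlock (fun i => i ≤ j)
      (fun i => i ≤ j) := e1
  have hB : (b.toBlock (fun i => i ≤ j) (fun i => i ≤ j)).det = ∏ i with i ≤ j, b i i := by
    rw [det_of_isUpperTriangular]
    · exact (Finset.prod_subtype _ (by simp) fun i => b i i).symm
    · intro a c hac; exact hb _ _ hac
  rw [e3, det_mul, det_transpose, hB] at h1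
  rw [← Real.log_prod fun i _ => (hbp i).ne']
  apply Real.log_nonneg
  have hp : 0 < ∏ i with i ≤ j, b i i := Finset.prod_pos fun i _ => hbp i
  nlinarith

theorem abel_zero (l : Fin n → ℝ) (h : ∀ j, 0 ≤ ∑ i with i ≤ j, l i) (h1 : ∑ i, l i = 0)
    (h2 : ∑ i : Fin n, ((i : ℕ) : ℝ) * l i = 0) (i : Fin n) : l i = 0 := by
  have hs : ∑ j : Fin n, ∑ i with i ≤ j, l i = 0 := by
    rw [Finset.sum_comm' (t' := Finset.univ) (s' := fun i => Finset.Ici i) (by simp)]
    simp only [Finset.sum_const, Fin.card_Ici, nsmul_eq_mul]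
    have : ∀ i : Fin n, ((n - (i : ℕ) : ℕ) : ℝ) * l i = n * l i - ((i : ℕ) : ℝ) * l i := by
      intro i; rw [Nat.cast_sub i.2.le]; ring
    simp only [this, Finset.sum_sub_distrib, ← Finset.mul_sum, h1, h2]
    simp
  have h3 := (Finset.sum_eq_zero_iff_of_nonneg fun j _ => h j).1 hs
  induction i using WellFoundedLT.induction with
  | ind i ih =>
    have h4 := h3 i (Finset.mem_univ _)
    rw [Finset.sum_eq_single i] at h4
    · exact h4
    · intro c hc hci
      exact ih c (lt_of_le_of_ne (Finset.mem_filter.1 hc).2 hci)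
    · simp

theorem unitri (b m : Matrix (Fin n) (Fin n) ℝ) (hb : ∀ i j, j < i → b i j = 0)
    (hb1 : ∀ i, b i i = 1) (hm : ∀ i j, i < j → m i j = 0) (hm1 : ∀ i, m i i = 1)
    (h : bᵀ * b = mᵀ * m) : b = 1 ∧ m = 1 := by
  have key : ∀ j, (∀ i, i ≠ j → b i j = 0) ∧ ∀ i, i ≠ j → m i j = 0 := by
    intro j
    induction j using WellFoundedLT.induction with
    | ind j ih =>
      have h1 : ∀ i, i ≠ j → b i j = 0 := by
        intro i hi
        rcases lt_or_gt_of_ne hi with hlt | hlt
        · have e := congrFun (congrFun h i) j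
          simp only [mul_apply, transpose_apply] at e
          rw [Finset.sum_eq_single i (fun c _ hc => by rw [(ih i hlt).1 c hc, zero_mul]) (by simp),
            Finset.sum_eq_single i (fun c _ hc => by rw [(ih i hlt).2 c hc, zero_mul]) (by simp),
            hb1, hm1, hm i j hlt] at e
          simpa using e
        · exact hb _ _ hlt
      refine ⟨h1, fun i hi => ?_⟩
      have e := congrFun (congrFun h j) j
      simp only [mul_apply, transpose_apply] at e
      rw [Finset.sum_eq_single j (fun c _ hc => by rw [h1 c hc, zero_mul]) (by simp),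
        ← Finset.add_sum_erase _ _ (Finset.mem_univ j), hb1, hm1] at e
      have e2 : ∑ c ∈ Finset.univ.erase j, m c j * m c j = 0 := by linarith
      have := (Finset.sum_eq_zero_iff_of_nonneg fun c _ => mul_self_nonneg (m c j)).1 e2 i
        (by simp [hi])
      exact mul_self_eq_zero.1 this
  constructor
  · ext i j
    by_cases hij : i = j
    · subst hij; simp [hb1]
    · rw [(key j).1 i hij, one_apply_ne hij]
  · ext i j
    by_cases hij : i = j
    · subst hij; simp [hm1]
    · rw [(key j).2 i hij, one_apply_ne hij]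

theorem gram (b m : Matrix (Fin n) (Fin n) ℝ) (hb : ∀ i j, j < i → b i j = 0)
    (hbp : ∀ i, 0 < b i i) (hdet : b.det = 1)
    (hw : ∑ i : Fin n, ((i : ℕ) : ℝ) * Real.log (b i i) = 0)
    (hm : ∀ i j, i < j → m i j = 0) (hm1 : ∀ i, m i i = 1)
    (h : bᵀ * b = mᵀ * m) : b = 1 ∧ m = 1 := by
  refine unitri b m hb (fun i => ?_) hm hm1 h
  have h1 : ∑ i, Real.log (b i i) = 0 := by
    rw [← Real.log_prod fun i _ => (hbp i).ne', ← det_of_isUpperTriangular, hdet, Real.log_one]
    intro a c hac; exact hb _ _ hac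
  have := abel_zero (fun i => Real.log (b i i)) (initial_prod b m hb hbp hm hm1 h) h1 hw i
  exact Real.eq_one_of_pos_of_log_eq_zero (hbp i) this

theorem diag_mul_upper (A B : Matrix (Fin n) (Fin n) ℝ) (hA : ∀ i j, j < i → A i j = 0)
    (hB : ∀ i j, j < i → B i j = 0) (i : Fin n) : (A * B) i i = A i i * B i i := by
  rw [mul_apply, Finset.sum_eq_single i]
  · intro c _ hc
    rcases lt_or_gt_of_ne hc with h | h
    · rw [hA _ _ h, zero_mul]
    · rw [hB _ _ h, mul_zero]
  · simp

theorem upper_div (x x' s : Matrix (Fin n) (Fin n) ℝ) (hx : ∀ i j, j < i → x i j = 0)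
    (hx' : ∀ i j, j < i → x' i j = 0) (hu : IsUnit x'.det) (hs : s * x' = x) :
    (∀ i j, j < i → s i j = 0) ∧ ∀ i, s i i * x' i i = x i i := by
  have h1 : s = x * x'⁻¹ := by rw [← hs, mul_nonsing_inv_cancel_right _ _ hu]
  have := invertibleOfIsUnitDet x' hu
  have h2 : BlockTriangular s id := by
    rw [h1]
    exact BlockTriangular.mul (fun i j h => hx i j h)
      (blockTriangular_inv_of_blockTriangular fun i j h => hx' i j h)
  refine ⟨fun i j h => h2 h, fun i => ?_⟩
  rw [← hs, diag_mul_upper s x' (fun i j h => h2 h) hx']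

theorem lower_div (x x' s : Matrix (Fin n) (Fin n) ℝ) (hx : ∀ i j, i < j → x i j = 0)
    (hx' : ∀ i j, i < j → x' i j = 0) (hu : IsUnit x'.det) (hs : s * x' = x) :
    (∀ i j, i < j → s i j = 0) ∧ ∀ i, s i i * x' i i = x i i := by
  have h1 : s = x * x'⁻¹ := by rw [← hs, mul_nonsing_inv_cancel_right _ _ hu]
  have := invertibleOfIsUnitDet x' hu
  have h2 : BlockTriangular s OrderDual.toDual := by
    rw [h1]
    exact BlockTriangular.mul (fun i j h => hx i j h)
      (blockTriangular_inv_of_blockTriangular fun i j h => hx' i j h)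
  refine ⟨fun i j h => h2 h, fun i => ?_⟩
  have := diag_mul_upper x'ᵀ sᵀ (fun i j h => hx' j i h) (fun i j h => h2 h) i
  rw [← transpose_mul, hs] at this
  simpa [mul_comm] using this.symm

end Pool.Agent.MP_9660fa_lc.H60
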