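import Pool.Agent.MP_9660fa_lc.H60.Defs

/-! Local analysis: parametrisations, fibres of submersions, and an invariance lemma. -/

open Module Filter Topology Set Metric

namespace Pool.Agent.MP_9660fa_lc.H60

section general
variable {E F : Type} [NormedAddCommGroup E] [NormedSpace ℝ E] [NormedAddCommGroup F]
  [NormedSpace ℝ F]

/-- A local parametrisation of `S` at `p` with derivative `A`. -/
def Loc (S : Set E) (p : E) {d : ℕ} (ψ : (Fin d → ℝ) → E) (A : (Fin d → ℝ) →L[ℝ] E) : Prop :=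
  HasStrictFDerivAt ψ A 0 ∧ Function.Injective A ∧ ψ 0 = p ∧ ∀ᶠ a in 𝓝 0, ψ a ∈ S

/-- The consequences of being a `C^1` submanifold that are used below. -/
def Good (d : ℕ) (S : Set E) : Prop :=
  S.Nonempty ∧ ∀ p ∈ S,
    (∃ (Ψ : (Fin d → ℝ) → E) (A : (Fin d → ℝ) → (Fin d → ℝ) →L[ℝ] E), Ψ 0 = p ∧
      ContinuousAt A 0 ∧ ∀ᶠ a in 𝓝 0, Ψ a ∈ S ∧ HasStrictFDerivAt Ψ (A a) a ∧
        Function.Injective (A a)) ∧
    ∃ U ∈ 𝓝 p, ∀ K ⊆ U, IsCompact K → IsCompact (S ∩ K)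

theorem good_of_isSubmanifold [FiniteDimensional ℝ E] {k : WithTop ℕ∞} (hk : 1 ≤ k) {d : ℕ}
    {S : Set E} (h : IsSubmanifold k d S) : Good d S := by
  have hk0 : k ≠ 0 := by rintro rfl; simp at hk
  refine ⟨h.1, fun p hp => ?_⟩
  obtain ⟨φ, L, hps, hφ, hψ, hL, hS⟩ := h.2 p hp
  constructor
  · let ι : (Fin d → ℝ) ≃L[ℝ] L := ContinuousLinearEquiv.ofFinrankEq (by simp [hL])
    let j : (Fin d → ℝ) →L[ℝ] E := L.subtypeL.comp (ι : (Fin d → ℝ) →L[ℝ] L)
    have hj : Function.Injective j := Subtype.val_injective.comp ι.injective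
    have hq : Continuous fun a => φ p + j a := by fun_prop
    have hq0 : Tendsto (fun a => φ p + j a) (𝓝 0) (𝓝 (φ p)) := by
      simpa using hq.tendsto 0
    have htar : φ.target ∈ 𝓝 (φ p) := φ.open_target.mem_nhds (φ.map_source hps)
    refine ⟨fun a => φ.symm (φ p + j a), fun a => (fderiv ℝ φ.symm (φ p + j a)).comp j,
      by simp [φ.left_inv hps], ?_, ?_⟩
    · have h1 : ContinuousAt (fderiv ℝ φ.symm) (φ p + j 0) := by
        rw [map_zero, add_zero]
        exact (hψ.continuousOn_fderiv_of_isOpen φ.open_target hk).continuousAt htar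
      exact (ContinuousAt.comp (f := fun a => φ p + j a) h1 hq.continuousAt).clm_comp
        continuousAt_const
    · filter_upwards [hq0 htar] with a ha
      have ha' : φ p + j a ∈ φ.target := ha
      have hd : HasStrictFDerivAt φ.symm (fderiv ℝ φ.symm (φ p + j a)) (φ p + j a) :=
        (hψ.contDiffAt (φ.open_target.mem_nhds ha')).hasStrictFDerivAt hk0
      refine ⟨?_, ?_, ?_⟩
      · rw [hS _ (φ.map_target ha'), φ.right_inv ha']
        exact L.add_mem ((hS p hps).1 hp) (ι a).2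
      · exact HasStrictFDerivAt.comp (f := fun a => φ p + j a) a hd
          (j.hasStrictFDerivAt.const_add _)
      · refine Function.Injective.comp (g := fderiv ℝ φ.symm (φ p + j a)) ?_ hj
        have hd2 := ((hφ.contDiffAt (φ.open_source.mem_nhds
          (φ.map_target ha'))).hasStrictFDerivAt hk0).hasFDerivAt
        have h3 := hd2.comp _ hd.hasFDerivAt
        have h4 : HasFDerivAt (φ ∘ φ.symm) (ContinuousLinearMap.id ℝ E) (φ p + j a) := by
          refine (hasFDerivAt_id _).congr_of_eventuallyEq ?_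
          filter_upwards [φ.open_target.mem_nhds ha'] with y hy using φ.right_inv hy
        have h5 := h3.unique h4
        apply Function.LeftInverse.injective (g := fderiv ℝ φ (φ.symm (φ p + j a)))
        intro v
        exact congrArg (fun T : E →L[ℝ] E => T v) h5
  · refine ⟨φ.source, φ.open_source.mem_nhds hps, fun K hK hc => ?_⟩
    have : S ∩ K = K ∩ φ ⁻¹' L := by
      ext x
      exact ⟨fun hx => ⟨hx.2, (hS x (hK hx.2)).1 hx.1⟩, fun hx => ⟨(hS x (hK hx.1)).2 hx.2, hx.1⟩⟩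
    rw [this]
    exact hc.of_isClosed_subset ((φ.continuousOn.mono hK).preimage_isClosed_of_isClosed
      hc.isClosed L.closed_of_finiteDimensional) inter_subset_left

theorem Good.image {d : ℕ} {S : Set E} (h : Good d S) (e : E ≃L[ℝ] F) : Good d (e '' S) := by
  refine ⟨h.1.image _, ?_⟩
  rintro _ ⟨p, hp, rfl⟩
  obtain ⟨⟨Ψ, A, h0, hA, hev⟩, U, hU, hK⟩ := h.2 p hp
  refine ⟨⟨fun a => e (Ψ a), fun a => (e : E →L[ℝ] F).comp (A a), by simp [h0],
    continuousAt_const.clm_comp hA, ?_⟩, e.symm ⁻¹' U, ?_, fun K hKU hc => ?_⟩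
  · filter_upwards [hev] with a ha
    exact ⟨mem_image_of_mem _ ha.1, (e : E →L[ℝ] F).hasStrictFDerivAt.comp a ha.2.1,
      e.injective.comp ha.2.2⟩
  · apply e.symm.continuous.continuousAt.preimage_mem_nhds
    simpa using hU
  · have := (hK (e.symm '' K) (image_subset_iff.2 hKU) (hc.image e.symm.continuous)).image
      e.continuous
    rwa [image_inter e.injective, image_image, funext e.apply_symm_apply, image_id'] at this

theorem Good.loc {d : ℕ} {S : Set E} (h : Good d S) {p : E} (hp : p ∈ S) :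
    ∃ (ψ : (Fin d → ℝ) → E) (A : (Fin d → ℝ) →L[ℝ] E), Loc S p ψ A := by
  obtain ⟨⟨Ψ, A, h0, -, hev⟩, -⟩ := h.2 p hp
  have := hev.self_of_nhds
  exact ⟨Ψ, A 0, this.2.1, this.2.2, h0, hev.mono fun a ha => ha.1⟩

theorem Loc.eventually_eq {S : Set E} {p : E} {d : ℕ} {ψ : (Fin d → ℝ) → E}
    {A : (Fin d → ℝ) →L[ℝ] E} (h : Loc S p ψ A) : ∀ᶠ a in 𝓝 0, ψ a = p → a = 0 := by
  obtain ⟨K, -, hK⟩ := (LinearMap.injective_iff_antilipschitz (A : (Fin d → ℝ) →ₗ[ℝ] E)).1 h.2.1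
  have := h.1.hasFDerivAt.eventually_ne (c := p) ⟨K, hK⟩
  rw [eventually_nhdsWithin_iff] at this
  filter_upwards [this] with a ha hp
  by_contra h0
  exact ha h0 hp

theorem Loc.curve {S : Set E} {p : E} {d : ℕ} {ψ : (Fin d → ℝ) → E}
    {A : (Fin d → ℝ) →L[ℝ] E} (h : Loc S p ψ A) (a : Fin d → ℝ) :
    ∃ c : ℝ → E, HasDerivAt c (A a) 0 ∧ c 0 = p ∧ ∀ᶠ τ in 𝓝 0, c τ ∈ S := by
  have h1 : HasDerivAt (fun τ : ℝ => τ • a) a 0 := by
    simpa using (hasDerivAt_id (0 : ℝ)).smul_const a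
  refine ⟨fun τ => ψ (τ • a), ?_, by simp [h.2.2.1], ?_⟩
  · exact HasFDerivAt.comp_hasDerivAt_of_eq (l := ψ) 0 h.1.hasFDerivAt h1 (by simp)
  · have : Tendsto (fun τ : ℝ => τ • a) (𝓝 0) (𝓝 0) := by
      simpa using h1.continuousAt.tendsto
    exact this.eventually h.2.2.2

theorem exists_in_fibre [FiniteDimensional ℝ E] [FiniteDimensional ℝ F] {f : E → F}
    {f' : E →L[ℝ] F} (hf : HasStrictFDerivAt f f' 0) (hs : Function.Surjective f')
    (hd : finrank ℝ F < finrank ℝ E) {N : Set E} (hN : N ∈ 𝓝 0) :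
    ∃ v ∈ N, v ≠ 0 ∧ f v = f 0 := by
  have := FiniteDimensional.complete ℝ E
  have := FiniteDimensional.complete ℝ F
  obtain ⟨κ, hκ, hκ0⟩ := Submodule.exists_mem_ne_zero_of_ne_bot
    (LinearMap.ker_ne_bot_of_finrank_lt (f := (f' : E →ₗ[ℝ] F)) hd)
  obtain ⟨l, hl⟩ := SeparatingDual.exists_eq_one (R := ℝ) hκ0
  have hκ' : f' κ = 0 := hκ
  have h1 := (hf.prodMk l.hasStrictFDerivAt).map_nhds_eq_of_surj (by
    rw [LinearMap.range_eq_top]
    rintro ⟨w, t⟩
    obtain ⟨v, rfl⟩ := hs w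
    exact ⟨v + (t - l v) • κ, by simp [hκ', hl]⟩)
  have h2 : (fun x => (f x, l x)) '' N ∈ 𝓝 (f 0, l 0) := by
    rw [← h1]; exact image_mem_map hN
  have h3 : Tendsto (fun t : ℝ => (f 0, t)) (𝓝 0) (𝓝 (f 0, l 0)) := by
    rw [map_zero]; exact (by fun_prop : Continuous fun t : ℝ => (f 0, t)).tendsto 0
  obtain ⟨t, ⟨v, hv, hvt⟩, ht⟩ := (((h3.eventually h2).filter_mono
    (nhdsWithin_le_nhds (s := {0}ᶜ))).and self_mem_nhdsWithin).exists
  refine ⟨v, hv, ?_, (Prod.ext_iff.1 hvt).1⟩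
  rintro rfl
  exact ht (by simpa using (Prod.ext_iff.1 hvt).2.symm)

end general

theorem invariance {R : Type} [NormedRing R] [NormedAlgebra ℝ R] [ProperSpace R] (S : Set R)
    (x₀ : R) (hx₀ : x₀ ∈ S) (U : Set R) (hU : U ∈ 𝓝 x₀)
    (hK : ∀ K ⊆ U, IsCompact K → IsCompact (S ∩ K)) (γ ξ : ℝ → R) (h0 : γ 0 = x₀)
    (hξ : ContinuousAt ξ 0)
    (h : ∀ᶠ τ in 𝓝 (0 : ℝ), HasDerivAt γ (ξ τ * γ τ) τ ∧ ∀ p ∈ S, ∃ c : ℝ → R,
      HasDerivAt c (ξ τ * p) 0 ∧ c 0 = p ∧ ∀ᶠ t in 𝓝 0, c t ∈ S) :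
    ∀ᶠ τ in 𝓝[>] (0 : ℝ), γ τ ∈ S := by
  obtain ⟨r, hr, hrU⟩ := nhds_basis_closedBall.mem_iff.1 hU
  have hc : IsCompact (S ∩ closedBall x₀ r) := hK _ hrU (isCompact_closedBall _ _)
  have hne : (S ∩ closedBall x₀ r).Nonempty := ⟨x₀, hx₀, mem_closedBall_self hr.le⟩
  have hγ : ContinuousAt γ 0 := h.self_of_nhds.1.continuousAt
  have e1 : ∀ᶠ τ in 𝓝 (0 : ℝ), dist (γ τ) x₀ < r / 3 := by
    rw [← h0]; exact Metric.tendsto_nhds.1 hγ _ (by linarith)
  have e2 : ∀ᶠ τ in 𝓝 (0 : ℝ), ‖ξ τ‖ < ‖ξ 0‖ + 1 :=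
    hξ.norm.eventually (gt_mem_nhds (lt_add_one _))
  obtain ⟨ε, hε, hall⟩ := nhds_basis_closedBall.mem_iff.1 (h.and (e1.and e2))
  have hin : ∀ τ ∈ Icc (0 : ℝ) ε, τ ∈ closedBall (0 : ℝ) ε := by
    intro τ hτ
    rw [mem_closedBall, dist_zero_right, Real.norm_of_nonneg hτ.1]; exact hτ.2
  have key := le_gronwallBound_of_liminf_deriv_right_le
    (f := fun τ => infDist (γ τ) (S ∩ closedBall x₀ r))
    (f' := fun τ => (‖ξ 0‖ + 1) * infDist (γ τ) (S ∩ closedBall x₀ r)) (δ := 0)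
    (K := ‖ξ 0‖ + 1) (ε := 0) (a := 0) (b := ε) ?_ ?_ ?_ ?_
  · filter_upwards [Ioc_mem_nhdsGT hε] with τ hτ
    have h1 := key τ ⟨hτ.1.le, hτ.2⟩
    rw [gronwallBound_ε0_δ0] at h1
    exact ((hc.isClosed.mem_iff_infDist_zero hne).2 (le_antisymm h1 infDist_nonneg)).1
  · intro τ hτ
    exact ((continuous_infDist_pt _).continuousAt.comp
      (hall (hin τ hτ)).1.1.continuousAt).continuousWithinAt
  · intro τ hτ ρ hρ
    obtain ⟨⟨hd, hp⟩, hdist, hnorm⟩ := hall (hin τ ⟨hτ.1, hτ.2.le⟩)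
    obtain ⟨p, hpK, hpd⟩ := hc.exists_infDist_eq_dist hne (γ τ)
    have hp1 : dist (γ τ) p < r / 3 := by
      rw [← hpd]
      exact lt_of_le_of_lt (infDist_le_dist_of_mem ⟨hx₀, mem_closedBall_self hr.le⟩) hdist
    have hp2 : dist p x₀ < r := by
      have := dist_triangle_left p x₀ (γ τ)
      linarith
    obtain ⟨c, hc1, hc2, hc3⟩ := hp p hpK.1
    have hc4 : ∀ᶠ t in 𝓝 (0 : ℝ), dist (c t) x₀ < r := by
      have := (hc1.continuousAt.dist (continuousAt_const (y := x₀))).eventually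
        (gt_mem_nhds (by rw [hc2]; exact hp2))
      exact this
    have hsub : HasDerivAt (fun z => z - τ) 1 τ := (hasDerivAt_id τ).sub_const τ
    have hc5 : HasDerivAt (fun z => c (z - τ)) (ξ τ * p) τ := by
      have := HasDerivAt.scomp_of_eq τ hc1 hsub (by simp)
      rw [one_smul] at this
      exact this
    have hw : HasDerivAt (fun z => γ z - c (z - τ)) (ξ τ * (γ τ - p)) τ := by
      rw [mul_sub]; exact hd.sub hc5
    have hlt : ‖ξ τ * (γ τ - p)‖ < ρ := by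
      refine lt_of_le_of_lt ((norm_mul_le _ _).trans ?_) hρ
      simp only [hpd, dist_eq_norm]
      exact mul_le_mul_of_nonneg_right hnorm.le (norm_nonneg _)
    have hfr := hw.hasDerivWithinAt.liminf_right_slope_norm_le hlt
    have htend : Tendsto (fun z => z - τ) (𝓝[>] τ) (𝓝 0) := by
      have := hsub.continuousAt.tendsto
      rw [sub_self] at this
      exact this.mono_left nhdsWithin_le_nhds
    refine (hfr.and_eventually ((htend.eventually (hc3.and hc4)).and self_mem_nhdsWithin)).mono ?_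
    rintro z ⟨h1, ⟨h2, h3⟩, h4⟩
    refine lt_of_le_of_lt ?_ h1
    have h5 : 0 < z - τ := sub_pos.2 h4
    apply mul_le_mul_of_nonneg_left _ (inv_pos.2 h5).le
    simp only [sub_self, hc2, hpd, dist_eq_norm]
    have := infDist_le_dist_of_mem (x := γ z)
      (show c (z - τ) ∈ S ∩ closedBall x₀ r from ⟨h2, h3.le⟩)
    rw [dist_eq_norm] at this
    linarith
  · simp only [h0]
    exact (infDist_zero_of_mem
      (show x₀ ∈ S ∩ closedBall x₀ r from ⟨hx₀, mem_closedBall_self hr.le⟩)).le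
  · intro τ _; simp

end Pool.Agent.MP_9660fa_lc.H60
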