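import Pool.Agent.MP_9660fa_lc.H60.Local

/-! In `SL(2, ℝ)` three submanifolds with the triple product property have total dimension
at most `3`. -/

open Module Filter Topology Set Metric Matrix
open scoped Matrix.Norms.Operator

namespace Pool.Agent.MP_9660fa_lc.H60

/-- Real `2 × 2` matrices. -/
abbrev Mat := Matrix (Fin 2) (Fin 2) ℝ

/-- The matrix form of the triple product property. -/
def TPPm (S T U : Set Mat) : Prop :=
  ∀ x ∈ S, ∀ x' ∈ S, ∀ y ∈ T, ∀ y' ∈ T, ∀ z ∈ U, ∀ z' ∈ U,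
    x * adjugate x' * (y * adjugate y') * (z * adjugate z') = 1 → x = x' ∧ y = y' ∧ z = z'

/-- The entry functional. -/
noncomputable def ent (i j : Fin 2) : Mat →L[ℝ] ℝ :=
  LinearMap.toContinuousLinearMap
    { toFun := fun X => X i j, map_add' := fun _ _ => rfl, map_smul' := fun _ _ => rfl }

/-- Three of the four entries. -/
noncomputable def prj : Mat →L[ℝ] ℝ × ℝ × ℝ := (ent 0 0).prod ((ent 0 1).prod (ent 1 0))

theorem prj_apply (X : Mat) : prj X = (X 0 0, X 0 1, X 1 0) := rfl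

theorem mul_adj {x : Mat} (h : x.det = 1) : x * adjugate x = 1 := by
  rw [mul_adjugate, h, one_smul]

theorem adj_mul {x : Mat} (h : x.det = 1) : adjugate x * x = 1 := by
  rw [adjugate_mul, h, one_smul]

theorem det_adj {x : Mat} (h : x.det = 1) : (adjugate x).det = 1 := by
  rw [det_adjugate, h, one_pow]

/-- Right multiplication as a continuous linear map. -/
noncomputable def rmul (x : Mat) : Mat →L[ℝ] Mat := (ContinuousLinearMap.mul ℝ Mat).flip x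

theorem rmul_apply (x X : Mat) : rmul x X = X * x := rfl

theorem not_surj {S₁ S₂ S₃ : Set Mat} (h₁ : ∀ x ∈ S₁, x.det = 1) (h₂ : ∀ x ∈ S₂, x.det = 1)
    (h₃ : ∀ x ∈ S₃, x.det = 1) (ht : TPPm S₁ S₂ S₃) {d₁ d₂ d₃ : ℕ} (hd : 4 ≤ d₁ + d₂ + d₃)
    {x y z : Mat} (hx : x ∈ S₁) (hy : y ∈ S₂) (hz : z ∈ S₃)
    {ψ₁ : (Fin d₁ → ℝ) → Mat} {A₁} (l₁ : Loc S₁ x ψ₁ A₁)
    {ψ₂ : (Fin d₂ → ℝ) → Mat} {A₂} (l₂ : Loc S₂ y ψ₂ A₂)
    {ψ₃ : (Fin d₃ → ℝ) → Mat} {A₃} (l₃ : Loc S₃ z ψ₃ A₃) :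
    ¬ Function.Surjective fun v : (Fin d₁ → ℝ) × (Fin d₂ → ℝ) × (Fin d₃ → ℝ) =>
      prj (A₁ v.1 * adjugate x + A₂ v.2.1 * adjugate y + A₃ v.2.2 * adjugate z) := by
  intro hs
  let p₁ : (Fin d₁ → ℝ) × (Fin d₂ → ℝ) × (Fin d₃ → ℝ) →L[ℝ] (Fin d₁ → ℝ) :=
    ContinuousLinearMap.fst ℝ _ _
  let p₂ : (Fin d₁ → ℝ) × (Fin d₂ → ℝ) × (Fin d₃ → ℝ) →L[ℝ] (Fin d₂ → ℝ) :=
    (ContinuousLinearMap.fst ℝ _ _).comp (ContinuousLinearMap.snd ℝ _ _)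
  let p₃ : (Fin d₁ → ℝ) × (Fin d₂ → ℝ) × (Fin d₃ → ℝ) →L[ℝ] (Fin d₃ → ℝ) :=
    (ContinuousLinearMap.snd ℝ _ _).comp (ContinuousLinearMap.snd ℝ _ _)
  have g₁ : HasStrictFDerivAt (fun v => ψ₁ (p₁ v) * adjugate x)
      ((rmul (adjugate x)).comp (A₁.comp p₁)) 0 :=
    (rmul (adjugate x)).hasStrictFDerivAt.comp 0
      (HasStrictFDerivAt.comp (g := ψ₁) 0 (by simpa using l₁.1) p₁.hasStrictFDerivAt)
  have g₂ : HasStrictFDerivAt (fun v => ψ₂ (p₂ v) * adjugate y)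
      ((rmul (adjugate y)).comp (A₂.comp p₂)) 0 :=
    (rmul (adjugate y)).hasStrictFDerivAt.comp 0
      (HasStrictFDerivAt.comp (g := ψ₂) 0 (by simpa using l₂.1) p₂.hasStrictFDerivAt)
  have g₃ : HasStrictFDerivAt (fun v => ψ₃ (p₃ v) * adjugate z)
      ((rmul (adjugate z)).comp (A₃.comp p₃)) 0 :=
    (rmul (adjugate z)).hasStrictFDerivAt.comp 0
      (HasStrictFDerivAt.comp (g := ψ₃) 0 (by simpa using l₃.1) p₃.hasStrictFDerivAt)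
  have e₁ : ψ₁ (p₁ 0) * adjugate x = 1 := by rw [map_zero, l₁.2.2.1, mul_adj (h₁ x hx)]
  have e₂ : ψ₂ (p₂ 0) * adjugate y = 1 := by rw [map_zero, l₂.2.2.1, mul_adj (h₂ y hy)]
  have e₃ : ψ₃ (p₃ 0) * adjugate z = 1 := by rw [map_zero, l₃.2.2.1, mul_adj (h₃ z hz)]
  have g := prj.hasStrictFDerivAt.comp 0 ((g₁.mul' g₂).mul' g₃)
  have t₁ : Tendsto p₁ (𝓝 0) (𝓝 0) := by simpa using p₁.continuous.tendsto 0
  have t₂ : Tendsto p₂ (𝓝 0) (𝓝 0) := by simpa using p₂.continuous.tendsto 0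
  have t₃ : Tendsto p₃ (𝓝 0) (𝓝 0) := by simpa using p₃.continuous.tendsto 0
  obtain ⟨v, ⟨⟨m₁, n₁⟩, ⟨m₂, n₂⟩, m₃, n₃⟩, hv0, hv⟩ := exists_in_fibre g
    (by
      intro w
      obtain ⟨v, hv⟩ := hs w
      refine ⟨v, ?_⟩
      rw [← hv]
      simp only [Pi.mul_apply, e₁, e₂, e₃, mul_one, one_smul, MulOpposite.op_one]
      show prj (A₃ v.2.2 * adjugate z + (A₂ v.2.1 * adjugate y + A₁ v.1 * adjugate x)) = _
      congr 1
      abel)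
    (by simp [finrank_prod]; omega)
    ((t₁.eventually (l₁.2.2.2.and l₁.eventually_eq)).and
      ((t₂.eventually (l₂.2.2.2.and l₂.eventually_eq)).and
        (t₃.eventually (l₃.2.2.2.and l₃.eventually_eq))))
  simp only [Pi.mul_apply, e₁, e₂, e₃, mul_one, prj_apply, Prod.mk.injEq] at hv
  set X := ψ₁ (p₁ v) * adjugate x * (ψ₂ (p₂ v) * adjugate y) * (ψ₃ (p₃ v) * adjugate z) with hX
  have hdet : X.det = 1 := by
    simp only [hX, det_mul, h₁ _ m₁, h₂ _ m₂, h₃ _ m₃, det_adj (h₁ x hx), det_adj (h₂ y hy),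
      det_adj (h₃ z hz), mul_one]
  have hX1 : X = 1 := by
    rw [det_fin_two, hv.1, hv.2.1] at hdet
    ext i j
    fin_cases i <;> fin_cases j
    · exact hv.1
    · exact hv.2.1
    · exact hv.2.2
    · simpa using hdet
  obtain ⟨q₁, q₂, q₃⟩ := ht _ m₁ x hx _ m₂ y hy _ m₃ z hz hX1
  exact hv0 (Prod.ext (n₁ q₁) (Prod.ext (n₂ q₂) (n₃ q₃)))

theorem traceless {S : Set Mat} (h : ∀ x ∈ S, x.det = 1) {d : ℕ} {x : Mat} (hx : x ∈ S)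
    {ψ : (Fin d → ℝ) → Mat} {A} (l : Loc S x ψ A) (a : Fin d → ℝ) :
    (A a * adjugate x) 0 0 + (A a * adjugate x) 1 1 = 0 := by
  obtain ⟨c, hc, hc0, hcS⟩ := l.curve a
  have h1 : HasDerivAt (fun τ => c τ * adjugate x) (A a * adjugate x) 0 := hc.mul_const _
  have h2 : ∀ i j, HasDerivAt (fun τ => (c τ * adjugate x) i j) ((A a * adjugate x) i j) 0 :=
    fun i j => (ent i j).hasFDerivAt.comp_hasDerivAt 0 h1
  have h3 := ((h2 0 0).mul (h2 1 1)).sub ((h2 0 1).mul (h2 1 0))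
  have h4 : HasDerivAt (fun _ : ℝ => (1 : ℝ)) 0 0 := hasDerivAt_const _ _
  have h5 := (h4.congr_of_eventuallyEq (f₁ := fun τ => (c τ * adjugate x) 0 0 *
      (c τ * adjugate x) 1 1 - (c τ * adjugate x) 0 1 * (c τ * adjugate x) 1 0) (by
    filter_upwards [hcS] with τ hτ
    rw [← det_fin_two, det_mul, h _ hτ, det_adj (h x hx), one_mul])).unique h3
  rw [hc0, mul_adj (h x hx)] at h5
  simpa using h5.symm

theorem eq_of_prj {X Y : Mat} (hX : X 0 0 + X 1 1 = 0) (hY : Y 0 0 + Y 1 1 = 0)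
    (h : prj X = prj Y) : X = Y := by
  simp only [prj_apply, Prod.mk.injEq] at h
  ext i j
  fin_cases i <;> fin_cases j
  · exact h.1
  · exact h.2.1
  · exact h.2.2
  · have := h.1
    show X 1 1 = Y 1 1
    linarith

theorem tang_inj {S : Set Mat} (h : ∀ x ∈ S, x.det = 1) {d : ℕ} {x : Mat} (hx : x ∈ S)
    {ψ : (Fin d → ℝ) → Mat} {A} (l : Loc S x ψ A) :
    Function.Injective (prj.comp ((rmul (adjugate x)).comp A)) := by
  intro a b hab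
  have h1 := eq_of_prj (traceless h hx l a) (traceless h hx l b) hab
  apply l.2.1
  have := congrArg (· * x) h1
  simpa only [mul_assoc, adj_mul (h x hx), mul_one] using this

theorem dim_le {S : Set Mat} (h : ∀ x ∈ S, x.det = 1) {d : ℕ} (hS : Good d S) : d ≤ 3 := by
  obtain ⟨x, hx⟩ := hS.1
  obtain ⟨ψ, A, l⟩ := hS.loc hx
  have := LinearMap.finrank_le_finrank_of_injective
    (f := (prj.comp ((rmul (adjugate x)).comp A)).toLinearMap) (tang_inj h hx l)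
  simpa [finrank_prod] using this

theorem tangent_sub {S₁ S₂ S₃ : Set Mat} (h₁ : ∀ x ∈ S₁, x.det = 1) (h₂ : ∀ x ∈ S₂, x.det = 1)
    (h₃ : ∀ x ∈ S₃, x.det = 1) (ht : TPPm S₁ S₂ S₃) {d₁ d₂ d₃ : ℕ} (hd : 4 ≤ d₁ + d₂ + d₃)
    (hd₁ : 2 ≤ d₁) (g₃ : Good d₃ S₃) {x y : Mat} (hx : x ∈ S₁) (hy : y ∈ S₂)
    {ψ₁ : (Fin d₁ → ℝ) → Mat} {A₁} (l₁ : Loc S₁ x ψ₁ A₁)
    {ψ₂ : (Fin d₂ → ℝ) → Mat} {A₂} (l₂ : Loc S₂ y ψ₂ A₂) (b : Fin d₂ → ℝ) :
    ∃ a, A₁ a = A₂ b * adjugate y * x := by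
  obtain ⟨z, hz⟩ := g₃.1
  obtain ⟨ψ₃, A₃, l₃⟩ := g₃.loc hz
  have hns := not_surj h₁ h₂ h₃ ht hd hx hy hz l₁ l₂ l₃
  set T := (prj.comp ((rmul (adjugate x)).comp A₁)).toLinearMap with hT
  have hV : finrank ℝ (LinearMap.range T) = d₁ := by
    rw [LinearMap.finrank_range_of_inj (tang_inj h₁ hx l₁)]; simp
  have hw : prj (A₂ b * adjugate y) ∈ LinearMap.range T := by
    by_contra hw
    apply hns
    have hlt : LinearMap.range T < LinearMap.range T ⊔ ℝ ∙ prj (A₂ b * adjugate y) := by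
      refine lt_of_le_of_ne le_sup_left fun h => hw ?_
      rw [h]; exact Submodule.mem_sup_right (Submodule.mem_span_singleton_self _)
    have h3 := Submodule.finrank_lt_finrank_of_lt hlt
    have htop : LinearMap.range T ⊔ ℝ ∙ prj (A₂ b * adjugate y) = ⊤ := by
      apply Submodule.eq_top_of_finrank_eq
      apply le_antisymm (Submodule.finrank_le _)
      have : finrank ℝ (ℝ × ℝ × ℝ) = 3 := by simp [finrank_prod]
      omega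
    intro w
    have hw' : w ∈ LinearMap.range T ⊔ ℝ ∙ prj (A₂ b * adjugate y) := by rw [htop]; trivial
    obtain ⟨_, ⟨a, rfl⟩, _, hu, rfl⟩ := Submodule.mem_sup.1 hw'
    obtain ⟨t, rfl⟩ := Submodule.mem_span_singleton.1 hu
    refine ⟨(a, t • b, 0), ?_⟩
    simp [hT, rmul_apply]
    rfl
  obtain ⟨a, ha⟩ := hw
  refine ⟨a, ?_⟩
  have h1 := eq_of_prj (traceless h₁ hx l₁ a) (traceless h₂ hy l₂ b) ha
  rw [← h1, mul_assoc, adj_mul (h₁ x hx), mul_one]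

theorem core {S₁ S₂ S₃ : Set Mat} (h₁ : ∀ x ∈ S₁, x.det = 1) (h₂ : ∀ x ∈ S₂, x.det = 1)
    (h₃ : ∀ x ∈ S₃, x.det = 1) (ht : TPPm S₁ S₂ S₃) {d₁ d₂ d₃ : ℕ} (hd : 4 ≤ d₁ + d₂ + d₃)
    (hd₁ : 2 ≤ d₁) (hd₂ : 1 ≤ d₂) (g₁ : Good d₁ S₁) (g₂ : Good d₂ S₂) (g₃ : Good d₃ S₃) :
    False := by
  obtain ⟨x₀, hx₀⟩ := g₁.1
  obtain ⟨y₀, hy₀⟩ := g₂.1
  obtain ⟨z₀, hz₀⟩ := g₃.1
  obtain ⟨-, U, hU, hK⟩ := g₁.2 x₀ hx₀
  obtain ⟨⟨Ψ, A, h0, hA, hev⟩, -⟩ := g₂.2 y₀ hy₀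
  set b : Fin d₂ → ℝ := fun _ => 1 with hb
  have hb0 : b ≠ 0 := fun h => one_ne_zero (congrFun h ⟨0, hd₂⟩)
  have hline : ∀ τ : ℝ, HasDerivAt (fun τ : ℝ => τ • b) b τ := fun τ => by
    simpa using (hasDerivAt_id τ).smul_const b
  have htend : Tendsto (fun τ : ℝ => τ • b) (𝓝 0) (𝓝 0) := by
    simpa using (hline 0).continuousAt.tendsto
  have l₀ : Loc S₂ y₀ Ψ (A 0) :=
    ⟨hev.self_of_nhds.2.1, hev.self_of_nhds.2.2, h0, hev.mono fun a ha => ha.1⟩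
  have hinv := invariance S₁ x₀ hx₀ U hU hK (fun τ => Ψ (τ • b) * (adjugate y₀ * x₀))
    (fun τ => A (τ • b) b * adjugate (Ψ (τ • b))) ?_ ?_ ?_
  · have e1 := (htend.eventually (l₀.2.2.2.and l₀.eventually_eq)).filter_mono
      (nhdsWithin_le_nhds (s := Ioi 0))
    obtain ⟨τ, hτ1, ⟨hτ2, hτ3⟩, hτ4⟩ := (hinv.and (e1.and self_mem_nhdsWithin)).exists
    have := ht _ hτ1 x₀ hx₀ y₀ hy₀ _ hτ2 z₀ hz₀ z₀ hz₀ (by
      rw [mul_adj (h₃ _ hz₀), mul_one, mul_assoc (Ψ _), mul_assoc (adjugate y₀),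
        mul_adj (h₁ _ hx₀), mul_one, mul_assoc, ← mul_assoc (adjugate y₀), adj_mul (h₂ _ hy₀),
        one_mul, mul_adj (h₂ _ hτ2)])
    rcases smul_eq_zero.1 (hτ3 this.2.1.symm) with h | h
    · exact (ne_of_gt hτ4) h
    · exact hb0 h
  · simp only [zero_smul, h0]
    rw [← mul_assoc, mul_adj (h₂ _ hy₀), one_mul]
  · have c1 : ContinuousAt (fun τ : ℝ => A (τ • b)) 0 :=
      ContinuousAt.comp_of_eq hA (hline 0).continuousAt (by simp)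
    have c2 : ContinuousAt (fun τ : ℝ => Ψ (τ • b)) 0 :=
      ContinuousAt.comp_of_eq l₀.1.continuousAt (hline 0).continuousAt (by simp)
    exact (c1.clm_apply continuousAt_const).mul
      (continuous_id.matrix_adjugate.continuousAt.comp c2)
  · filter_upwards [htend.eventually hev.eventually_nhds] with τ hτ
    obtain ⟨q1, q2, q3⟩ := hτ.self_of_nhds
    constructor
    · have := (q2.hasFDerivAt.comp_hasDerivAt τ (hline τ)).mul_const (adjugate y₀ * x₀)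
      have e : A (τ • b) b * adjugate (Ψ (τ • b)) * (Ψ (τ • b) * (adjugate y₀ * x₀)) =
          A (τ • b) b * (adjugate y₀ * x₀) := by
        rw [mul_assoc, ← mul_assoc (adjugate _), adj_mul (h₂ _ q1), one_mul]
      rw [e]
      exact this
    · intro p hp
      obtain ⟨ψ₁, A₁, l₁⟩ := g₁.loc hp
      have hsh : Tendsto (fun a => τ • b + a) (𝓝 0) (𝓝 (τ • b)) := by
        simpa using (by fun_prop : Continuous fun a : Fin d₂ → ℝ => τ • b + a).tendsto 0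
      have l₂ : Loc S₂ (Ψ (τ • b)) (fun a => Ψ (τ • b + a)) (A (τ • b)) := by
        refine ⟨?_, q3, by simp, (hsh.eventually hτ).mono fun a ha => ha.1⟩
        have := HasStrictFDerivAt.comp (g := Ψ) (f := fun a => τ • b + a) 0
          (by simpa using q2) ((hasStrictFDerivAt_id (0 : Fin d₂ → ℝ)).const_add (τ • b))
        simpa using this
      obtain ⟨a, ha⟩ := tangent_sub h₁ h₂ h₃ ht hd hd₁ g₃ hp q1 l₁ l₂ b
      rw [← ha]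
      exact l₁.curve a

theorem TPP.cyc {G : Type} [Group G] {S T U : Set G} (h : TPP S T U) : TPP T U S := by
  intro t ht u hu s hs e
  have : s * t * u = 1 := by
    rw [mul_assoc, mul_eq_one_comm]; exact e
  obtain ⟨h1, h2, h3⟩ := h s hs t ht u hu this
  exact ⟨h2, h3, h1⟩

theorem TPP.rev {G : Type} [Group G] {S T U : Set G} (h : TPP S T U) : TPP U T S := by
  rintro _ ⟨z, hz, z', hz', rfl⟩ _ ⟨y, hy, y', hy', rfl⟩ _ ⟨x, hx, x', hx', rfl⟩ e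
  obtain ⟨h1, h2, h3⟩ := h _ ⟨x', hx', x, hx, rfl⟩ _ ⟨y', hy', y, hy, rfl⟩ _
    ⟨z', hz', z, hz, rfl⟩ (by rw [← inv_eq_one, ← e]; group)
  rw [mul_inv_eq_one] at h1 h2 h3
  simp [h1, h2, h3]

/-- The identification of entry arrays with matrices. -/
noncomputable def toMat : (Fin 2 → Fin 2 → ℝ) ≃L[ℝ] Mat :=
  (Matrix.ofLinearEquiv ℝ).toContinuousLinearEquiv

theorem mem_toMat (M : Set (Matrix.SpecialLinearGroup (Fin 2) ℝ)) (X : Mat) :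
    X ∈ toMat '' entries M ↔ ∃ g ∈ M, (g : Mat) = X := by
  constructor
  · rintro ⟨A, ⟨g, hg, h⟩, rfl⟩
    exact ⟨g, hg, by ext i j; exact (h i j).symm⟩
  · rintro ⟨g, hg, rfl⟩
    exact ⟨fun i j => g i j, ⟨g, hg, fun _ _ => rfl⟩, rfl⟩

theorem core' {M₁ M₂ M₃ : Set (Matrix.SpecialLinearGroup (Fin 2) ℝ)} (ht : TPP M₁ M₂ M₃)
    {d₁ d₂ d₃ : ℕ} (hd : 4 ≤ d₁ + d₂ + d₃) (hd₁ : 2 ≤ d₁) (hd₂ : 1 ≤ d₂)
    (g₁ : Good d₁ (entries M₁)) (g₂ : Good d₂ (entries M₂)) (g₃ : Good d₃ (entries M₃)) :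
    False := by
  have hdet : ∀ M : Set (Matrix.SpecialLinearGroup (Fin 2) ℝ), ∀ X ∈ toMat '' entries M,
      X.det = 1 := by
    intro M X hX
    obtain ⟨g, -, rfl⟩ := (mem_toMat M X).1 hX
    exact g.det_coe
  refine core (hdet M₁) (hdet M₂) (hdet M₃) ?_ hd hd₁ hd₂ (g₁.image _) (g₂.image _) (g₃.image _)
  simp only [TPPm, mem_toMat]
  rintro _ ⟨x, hx, rfl⟩ _ ⟨x', hx', rfl⟩ _ ⟨y, hy, rfl⟩ _ ⟨y', hy', rfl⟩ _ ⟨z, hz, rfl⟩ _
    ⟨z', hz', rfl⟩ e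
  obtain ⟨h1, h2, h3⟩ := ht _ ⟨x, hx, x', hx', rfl⟩ _ ⟨y, hy, y', hy', rfl⟩ _
    ⟨z, hz, z', hz', rfl⟩ (Subtype.ext e)
  rw [mul_inv_eq_one] at h1 h2 h3
  simp [h1, h2, h3]

theorem lower_bound (k : WithTop ℕ∞) (hk : 1 ≤ k) : lieExponent k 2 = ⊤ := by
  rw [lieExponent, sInf_eq_top]
  rintro w ⟨M₁, M₂, M₃, d₁, d₂, d₃, s₁, s₂, s₃, ht, hlt, -⟩
  exfalso
  have hd : 4 ≤ d₁ + d₂ + d₃ := by
    have : (3 : ℝ) < ((d₁ + d₂ + d₃ : ℕ) : ℝ) := by push_cast at hlt ⊢; linarith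
    exact_mod_cast this
  have g₁ := good_of_isSubmanifold hk s₁
  have g₂ := good_of_isSubmanifold hk s₂
  have g₃ := good_of_isSubmanifold hk s₃
  have hdet : ∀ M : Set (Matrix.SpecialLinearGroup (Fin 2) ℝ), ∀ X ∈ toMat '' entries M,
      X.det = 1 := by
    intro M X hX
    obtain ⟨g, -, rfl⟩ := (mem_toMat M X).1 hX
    exact g.det_coe
  have b₁ := dim_le (hdet M₁) (g₁.image _)
  have b₂ := dim_le (hdet M₂) (g₂.image _)
  have b₃ := dim_le (hdet M₃) (g₃.image _)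
  have : (2 ≤ d₁ ∧ 1 ≤ d₂) ∨ (2 ≤ d₂ ∧ 1 ≤ d₃) ∨ (2 ≤ d₃ ∧ 1 ≤ d₁) ∨
      (2 ≤ d₃ ∧ 1 ≤ d₂) ∨ (2 ≤ d₂ ∧ 1 ≤ d₁) ∨ (2 ≤ d₁ ∧ 1 ≤ d₃) := by omega
  rcases this with h | h | h | h | h | h
  · exact core' ht hd h.1 h.2 g₁ g₂ g₃
  · exact core' ht.cyc (by omega) h.1 h.2 g₂ g₃ g₁
  · exact core' ht.cyc.cyc (by omega) h.1 h.2 g₃ g₁ g₂
  · exact core' ht.rev (by omega) h.1 h.2 g₃ g₂ g₁
  · exact core' ht.rev.cyc (by omega) h.1 h.2 g₂ g₁ g₃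
  · exact core' ht.rev.cyc.cyc (by omega) h.1 h.2 g₁ g₃ g₂

end Pool.Agent.MP_9660fa_lc.H60
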