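import Pool.Agent.MP_9660fa_lc.H60.Defs
import Pool.Agent.MP_9660fa_lc.H60.Gram

/-! Three submanifolds of `SL(n, ℝ)` with the triple product property. -/

open Matrix Module

namespace Pool.Agent.MP_9660fa_lc.H60

theorem isSubmanifold_of_chart {E F : Type} [NormedAddCommGroup E] [NormedSpace ℝ E]
    [FiniteDimensional ℝ E] [AddCommGroup F] [Module ℝ F] [FiniteDimensional ℝ F]
    (k : WithTop ℕ∞) (M U V : Set E) (φ ψ : E → E) (T : E →ₗ[ℝ] F) (hne : M.Nonempty)
    (hMU : M ⊆ U) (hU : IsOpen U) (hV : IsOpen V) (hφ : ContDiffOn ℝ k φ U)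
    (hψ : ContDiffOn ℝ k ψ V) (h1 : ∀ x ∈ U, φ x ∈ V) (h2 : ∀ y ∈ V, ψ y ∈ U)
    (h3 : ∀ x ∈ U, ψ (φ x) = x) (h4 : ∀ y ∈ V, φ (ψ y) = y)
    (hM : ∀ x ∈ U, x ∈ M ↔ T (φ x) = 0) :
    ∃ d : ℕ, finrank ℝ E ≤ d + finrank ℝ F ∧ IsSubmanifold k d M := by
  refine ⟨finrank ℝ (LinearMap.ker T), ?_, hne, fun p hp => ?_⟩
  · have := T.finrank_range_add_finrank_ker
    have := (LinearMap.range T).finrank_le
    omega
  · exact ⟨{ toFun := φ, invFun := ψ, source := U, target := V, map_source' := h1,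
             map_target' := h2, left_inv' := h3, right_inv' := h4, open_source := hU,
             open_target := hV, continuousOn_toFun := hφ.continuousOn,
             continuousOn_invFun := hψ.continuousOn }, LinearMap.ker T, hMU hp, hφ, hψ, rfl, hM⟩

variable {n : ℕ}

/-- Upper triangular matrices with positive diagonal and one extra linear condition on the
logarithms of the diagonal entries. -/
def setB (n : ℕ) : Set (Matrix.SpecialLinearGroup (Fin n) ℝ) :=
  {g | (∀ i j, j < i → g i j = 0) ∧ (∀ i, 0 < g i i) ∧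
    ∑ i : Fin n, ((i : ℕ) : ℝ) * Real.log (g i i) = 0}

/-- Lower unitriangular matrices. -/
def setL (n : ℕ) : Set (Matrix.SpecialLinearGroup (Fin n) ℝ) :=
  {g | (∀ i j, i < j → g i j = 0) ∧ ∀ i, g i i = 1}

/-- Orthogonal matrices without eigenvalue `-1`. -/
def setK (n : ℕ) : Set (Matrix.SpecialLinearGroup (Fin n) ℝ) :=
  {g | (g : Matrix (Fin n) (Fin n) ℝ)ᵀ * g = 1 ∧ (1 + (g : Matrix (Fin n) (Fin n) ℝ)).det ≠ 0}

theorem tpp : TPP (setB n) (setL n) (setK n) := by
  rintro s ⟨x, hx, x', hx', rfl⟩ t ⟨y, hy, y', hy', rfl⟩ u ⟨z, hz, z', hz', rfl⟩ h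
  have hunit : ∀ g : Matrix.SpecialLinearGroup (Fin n) ℝ, IsUnit (g : Matrix (Fin n) (Fin n) ℝ).det := by
    intro g; rw [g.det_coe]; exact isUnit_one
  obtain ⟨b1, b2⟩ := upper_div (x : Matrix (Fin n) (Fin n) ℝ) x' (x * x'⁻¹ :) hx.1 hx'.1 (hunit _)
    (by rw [← Matrix.SpecialLinearGroup.coe_mul, inv_mul_cancel_right])
  obtain ⟨m1, m2⟩ := lower_div (y' : Matrix (Fin n) (Fin n) ℝ) y (y' * y⁻¹ :) hy'.1 hy.1 (hunit _)
    (by rw [← Matrix.SpecialLinearGroup.coe_mul, inv_mul_cancel_right])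
  have hbp : ∀ i, 0 < (x * x'⁻¹ :) i i := by
    intro i
    have h1 := hx.2.1 i
    have h2 := hx'.2.1 i
    have h3 := b2 i
    by_contra hc
    push Not at hc
    nlinarith
  have hw : ∑ i : Fin n, ((i : ℕ) : ℝ) * Real.log ((x * x'⁻¹ :) i i) = 0 := by
    have : ∀ i : Fin n, ((i : ℕ) : ℝ) * Real.log ((x * x'⁻¹ :) i i) =
        ((i : ℕ) : ℝ) * Real.log (x i i) - ((i : ℕ) : ℝ) * Real.log (x' i i) := by
      intro i
      rw [← b2 i, Real.log_mul (hbp i).ne' (hx'.2.1 i).ne']; ring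
    simp only [this, Finset.sum_sub_distrib, hx.2.2, hx'.2.2, sub_zero]
  have hm1 : ∀ i, (y' * y⁻¹ :) i i = 1 := by
    intro i
    have := m2 i
    rwa [hy.2 i, hy'.2 i, mul_one] at this
  have hw1 : ((z' * z⁻¹ :) : Matrix (Fin n) (Fin n) ℝ)ᵀ * (z' * z⁻¹ :) = 1 := by
    have e1 : ((z⁻¹ :) : Matrix (Fin n) (Fin n) ℝ) = (z : Matrix (Fin n) (Fin n) ℝ)ᵀ := by
      have e0 : (z : Matrix (Fin n) (Fin n) ℝ) * (z⁻¹ :) = 1 := by
        rw [← Matrix.SpecialLinearGroup.coe_mul, mul_inv_cancel, Matrix.SpecialLinearGroup.coe_one]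
      calc ((z⁻¹ :) : Matrix (Fin n) (Fin n) ℝ)
          = (z : Matrix (Fin n) (Fin n) ℝ)ᵀ * z * (z⁻¹ :) := by rw [hz.1, Matrix.one_mul]
        _ = _ := by rw [Matrix.mul_assoc, e0, Matrix.mul_one]
    rw [Matrix.SpecialLinearGroup.coe_mul, e1, transpose_mul, transpose_transpose, Matrix.mul_assoc,
      ← Matrix.mul_assoc _ (z' : Matrix (Fin n) (Fin n) ℝ), hz'.1, Matrix.one_mul]
    exact mul_eq_one_comm.1 hz.1
  have hs : x * x'⁻¹ = (z' * z⁻¹) * (y' * y⁻¹) := by
    have : x * x'⁻¹ = (y * y'⁻¹ * (z * z'⁻¹))⁻¹ := by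
      rw [eq_inv_iff_mul_eq_one, ← mul_assoc]; exact h
    rw [this]; group
  have hg : ((x * x'⁻¹ :) : Matrix (Fin n) (Fin n) ℝ)ᵀ * (x * x'⁻¹ :) =
      ((y' * y⁻¹ :) : Matrix (Fin n) (Fin n) ℝ)ᵀ * (y' * y⁻¹ :) := by
    rw [hs, Matrix.SpecialLinearGroup.coe_mul (z' * z⁻¹), transpose_mul, Matrix.mul_assoc,
      ← Matrix.mul_assoc _ ((z' * z⁻¹ :) : Matrix (Fin n) (Fin n) ℝ), hw1, Matrix.one_mul]
  obtain ⟨r1, r2⟩ := gram _ _ b1 hbp (Matrix.SpecialLinearGroup.det_coe _) hw m1 hm1 hg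
  have q1 : x * x'⁻¹ = 1 := Subtype.ext r1
  have q2 : y' * y⁻¹ = 1 := Subtype.ext r2
  have q3 : y * y'⁻¹ = 1 := by rw [← inv_eq_one, _root_.mul_inv_rev, inv_inv, q2]
  refine ⟨q1, q3, ?_⟩
  rwa [q1, q3, one_mul, one_mul] at h

theorem mem_entries (M : Set (Matrix.SpecialLinearGroup (Fin n) ℝ)) (A : Fin n → Fin n → ℝ) :
    A ∈ entries M ↔ ∃ h : (Matrix.of A).det = 1, (⟨Matrix.of A, h⟩ : Matrix.SpecialLinearGroup _ _) ∈ M := by
  constructor
  · rintro ⟨g, hg, h⟩
    have : Matrix.of A = g := by ext i j; exact h i j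
    have hd : (Matrix.of A).det = 1 := by rw [this]; exact g.det_coe
    have he : (⟨Matrix.of A, hd⟩ : Matrix.SpecialLinearGroup (Fin n) ℝ) = g := Subtype.ext this
    exact ⟨hd, by rw [he]; exact hg⟩
  · rintro ⟨h, hg⟩
    exact ⟨_, hg, fun _ _ => rfl⟩

theorem finrank_E : finrank ℝ (Fin n → Fin n → ℝ) = n * n := by
  simp [finrank_pi_fintype]

theorem card_le_pairs : Fintype.card {p : Fin n × Fin n // p.1 ≤ p.2} +
    Fintype.card {p : Fin n × Fin n // p.2 < p.1} = n * n := by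
  have := Fintype.card_subtype_compl fun p : Fin n × Fin n => p.1 ≤ p.2
  simp only [not_le, Fintype.card_prod, Fintype.card_fin] at this
  have h2 := Fintype.card_subtype_le fun p : Fin n × Fin n => p.1 ≤ p.2
  simp only [Fintype.card_prod, Fintype.card_fin] at h2
  omega

theorem card_lt_pairs : 2 * Fintype.card {p : Fin n × Fin n // p.2 < p.1} + n = n * n := by
  have h1 : Fintype.card {p : Fin n × Fin n // p.2 < p.1} =
      Fintype.card {p : Fin n × Fin n // p.1 < p.2} :=
    Fintype.card_congr ((Equiv.prodComm _ _).subtypeEquiv fun _ => Iff.rfl)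
  rw [h1, Fintype.card_subtype, Fintype.card_product_filter_lt, Fintype.card_fin,
    Nat.choose_two_right]
  rcases n with _ | m
  · simp
  · rw [Nat.mul_div_cancel' (by rw [Nat.add_sub_cancel, mul_comm]; exact (Nat.even_mul_succ_self m).two_dvd)]
    simp; ring

theorem subm_B (k : WithTop ℕ∞) : ∃ d : ℕ,
    n * n ≤ d + (Fintype.card {p : Fin n × Fin n // p.2 < p.1} + 2) ∧
      IsSubmanifold k d (entries (setB n)) := by
  let T : (Fin n → Fin n → ℝ) →ₗ[ℝ] ({p : Fin n × Fin n // p.2 < p.1} → ℝ) × ℝ × ℝ :=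
    { toFun := fun Y => (fun p => Y p.1.1 p.1.2, ∑ i, Y i i, ∑ i : Fin n, ((i : ℕ) : ℝ) * Y i i)
      map_add' := by
        intro X Y
        ext <;> simp [Finset.sum_add_distrib, mul_add]
      map_smul' := by
        intro c X
        ext <;> simp [Finset.mul_sum, mul_left_comm] }
  have := isSubmanifold_of_chart k (entries (setB n)) {X | ∀ i, 0 < X i i} Set.univ
    (fun X i j => if i = j then Real.log (X i i) else X i j)
    (fun Y i j => if i = j then Real.exp (Y i i) else Y i j) T ?_ ?_ ?_ isOpen_univ ?_ ?_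
    (fun _ _ => trivial) ?_ ?_ ?_ ?_
  · simpa [finrank_E, finrank_prod] using this
  · refine ⟨_, 1, ⟨fun i j h => ?_, fun i => ?_, ?_⟩, fun _ _ => rfl⟩
    · simp [h.ne']
    · simp
    · simp
  · rintro A ⟨g, hg, h⟩ i
    rw [h]; exact hg.2.1 i
  · simp only [Set.ofPred_forall]
    exact isOpen_iInter_of_finite fun i => isOpen_lt continuous_const (by fun_prop)
  · refine contDiffOn_pi.2 fun i => contDiffOn_pi.2 fun j => ?_
    split_ifs
    · exact ContDiffOn.log (by fun_prop) fun X hX => (hX i).ne'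
    · fun_prop
  · refine contDiffOn_pi.2 fun i => contDiffOn_pi.2 fun j => ?_
    split_ifs <;> fun_prop
  · intro Y _ i; simp [Real.exp_pos]
  · intro X hX
    ext i j
    by_cases h : i = j
    · subst h; simp [Real.exp_log (hX i)]
    · simp [h]
  · intro Y _
    ext i j
    by_cases h : i = j
    · subst h; simp
    · simp [h]
  · intro X hX
    rw [mem_entries]
    simp only [T, LinearMap.coe_mk, AddHom.coe_mk, if_true, Prod.mk_eq_zero]
    constructor
    · rintro ⟨h, h1, -, h3⟩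
      refine ⟨funext fun p => ?_, ?_, h3⟩
      · rw [if_neg p.2.ne']; exact h1 _ _ p.2
      · rw [← Real.log_prod fun i _ => (hX i).ne']
        rw [det_of_isUpperTriangular fun i j hij => h1 i j hij] at h
        simp only [of_apply] at h
        rw [h, Real.log_one]
    · rintro ⟨h1, h2, h3⟩
      have h4 : ∀ i j, j < i → X i j = 0 := by
        intro i j hij
        have := congrFun h1 ⟨(i, j), hij⟩
        simpa [hij.ne'] using this
      refine ⟨?_, h4, hX, h3⟩
      rw [det_of_isUpperTriangular (M := Matrix.of X) fun i j hij => h4 i j hij]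
      rw [← Real.log_prod fun i _ => (hX i).ne'] at h2
      exact Real.eq_one_of_pos_of_log_eq_zero (Finset.prod_pos fun i _ => hX i) h2

theorem subm_L (k : WithTop ℕ∞) : ∃ d : ℕ,
    n * n ≤ d + Fintype.card {p : Fin n × Fin n // p.1 ≤ p.2} ∧
      IsSubmanifold k d (entries (setL n)) := by
  let T : (Fin n → Fin n → ℝ) →ₗ[ℝ] ({p : Fin n × Fin n // p.1 ≤ p.2} → ℝ) :=
    { toFun := fun Y p => Y p.1.1 p.1.2
      map_add' := by intro X Y; ext; simp
      map_smul' := by intro c X; ext; simp }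
  have := isSubmanifold_of_chart k (entries (setL n)) Set.univ Set.univ
    (fun X i j => X i j - if i = j then 1 else 0)
    (fun Y i j => Y i j + if i = j then 1 else 0) T ?_ (Set.subset_univ _) isOpen_univ
    isOpen_univ ?_ ?_ (fun _ _ => trivial) (fun _ _ => trivial) ?_ ?_ ?_
  · simpa [finrank_E] using this
  · refine ⟨_, 1, ⟨fun i j h => ?_, fun i => ?_⟩, fun _ _ => rfl⟩
    · simp [h.ne]
    · simp
  · fun_prop
  · fun_prop
  · intro X _; ext i j; simp
  · intro X _; ext i j; simp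
  · intro X _
    rw [mem_entries]
    simp only [T, LinearMap.coe_mk, AddHom.coe_mk]
    constructor
    · rintro ⟨_, h1, h2⟩
      funext p
      rcases p.2.lt_or_eq with h | h
      · rw [if_neg h.ne, sub_zero]; exact h1 _ _ h
      · rw [if_pos h, ← h, Pi.zero_apply, sub_eq_zero]; exact h2 _
    · intro h
      have h1 : ∀ i j, i < j → X i j = 0 := by
        intro i j hij
        have := congrFun h ⟨(i, j), hij.le⟩
        simpa [hij.ne] using this
      have h2 : ∀ i, X i i = 1 := by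
        intro i
        have := congrFun h ⟨(i, i), le_rfl⟩
        simpa [sub_eq_zero] using this
      refine ⟨?_, h1, h2⟩
      rw [det_of_isLowerTriangular (Matrix.of X) fun i j hij => h1 i j hij]
      simp [h2]

theorem contDiff_det {E : Type} [NormedAddCommGroup E] [NormedSpace ℝ E] (k : WithTop ℕ∞)
    (f : E → Matrix (Fin n) (Fin n) ℝ) (hf : ∀ i j, ContDiff ℝ k fun x => f x i j) :
    ContDiff ℝ k fun x => (f x).det := by
  simp only [det_apply']
  exact ContDiff.sum fun σ _ => contDiff_const.mul (contDiff_prod fun i _ => hf _ _)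

/-- The Cayley transform. -/
noncomputable def cay (X : Matrix (Fin n) (Fin n) ℝ) : Matrix (Fin n) (Fin n) ℝ :=
  (1 - X) * (1 + X)⁻¹

theorem cay_mul (X : Matrix (Fin n) (Fin n) ℝ) (h : (1 + X).det ≠ 0) :
    cay X * (1 + X) = 1 - X := nonsing_inv_mul_cancel_right _ _ h.isUnit

theorem one_add_cay (X : Matrix (Fin n) (Fin n) ℝ) (h : (1 + X).det ≠ 0) :
    (1 + cay X) * (1 + X) = (2 : ℝ) • (1 : Matrix (Fin n) (Fin n) ℝ) := by
  rw [add_mul, cay_mul X h, one_mul, two_smul]; abel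

theorem det_one_add_cay (X : Matrix (Fin n) (Fin n) ℝ) (h : (1 + X).det ≠ 0) :
    (1 + cay X).det ≠ 0 := by
  have := congrArg det (one_add_cay X h)
  rw [det_mul, det_smul, det_one] at this
  intro h0
  rw [h0, zero_mul] at this
  exact absurd this.symm (by positivity)

theorem cay_cay (X : Matrix (Fin n) (Fin n) ℝ) (h : (1 + X).det ≠ 0) : cay (cay X) = X := by
  have h1 : 1 - cay X = X * (1 + cay X) := by
    have hu : IsUnit (1 + X) := (isUnit_iff_isUnit_det _).2 h.isUnit
    apply hu.mul_right_cancel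
    rw [sub_mul, cay_mul X h, mul_assoc, one_add_cay X h, one_mul, mul_smul_comm, mul_one,
      two_smul]
    abel
  rw [cay, h1]
  exact mul_nonsing_inv_cancel_right _ _ (det_one_add_cay X h).isUnit

theorem cay_skew (X : Matrix (Fin n) (Fin n) ℝ) (h : (1 + X).det ≠ 0) :
    (cay X)ᵀ + cay X = 0 ↔ Xᵀ * X = 1 := by
  have hu : IsUnit (1 + X) := (isUnit_iff_isUnit_det _).2 h.isUnit
  have hu' : IsUnit (1 + X)ᵀ := (isUnit_iff_isUnit_det _).2 (by rw [det_transpose]; exact h.isUnit)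
  have key : (1 + X)ᵀ * (((cay X)ᵀ + cay X) * (1 + X)) = (2 : ℝ) • (1 - Xᵀ * X) := by
    rw [add_mul, mul_add, ← mul_assoc, ← transpose_mul, cay_mul X h]
    simp only [transpose_add, transpose_sub, transpose_one, two_smul]
    noncomm_ring
  constructor
  · intro h0
    rw [h0, zero_mul, mul_zero] at key
    exact (sub_eq_zero.1 ((smul_eq_zero.1 key.symm).resolve_left two_ne_zero)).symm
  · intro h0
    rw [h0, sub_self, smul_zero] at key
    rwa [hu'.mul_right_eq_zero, hu.mul_left_eq_zero] at key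

theorem subm_K (k : WithTop ℕ∞) : ∃ d : ℕ,
    n * n ≤ d + Fintype.card {p : Fin n × Fin n // p.1 ≤ p.2} ∧
      IsSubmanifold k d (entries (setK n)) := by
  let T : (Fin n → Fin n → ℝ) →ₗ[ℝ] ({p : Fin n × Fin n // p.1 ≤ p.2} → ℝ) :=
    { toFun := fun Y p => Y p.1.2 p.1.1 + Y p.1.1 p.1.2
      map_add' := by intro X Y; ext; simp; ring
      map_smul' := by intro c X; ext; simp; ring }
  have hent : ∀ i j, ContDiff ℝ k fun X : Fin n → Fin n → ℝ => (1 + Matrix.of X) i j := by
    intro i j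
    simp only [Matrix.add_apply, of_apply]
    fun_prop
  have hdet : ContDiff ℝ k fun X : Fin n → Fin n → ℝ => (1 + Matrix.of X).det :=
    contDiff_det k _ hent
  have hopen : IsOpen {X : Fin n → Fin n → ℝ | (1 + Matrix.of X).det ≠ 0} :=
    isOpen_ne_fun hdet.continuous continuous_const
  have hcd : ContDiffOn ℝ k (fun (X : Fin n → Fin n → ℝ) i j => cay (Matrix.of X) i j)
      {X | (1 + Matrix.of X).det ≠ 0} := by
    refine contDiffOn_pi.2 fun i => contDiffOn_pi.2 fun j => ?_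
    simp only [cay, Matrix.mul_apply, inv_def, Ring.inverse_eq_inv', Matrix.smul_apply,
      smul_eq_mul]
    refine ContDiffOn.sum fun l _ => ContDiffOn.mul ?_ (ContDiffOn.mul ?_ ?_)
    · simp only [Matrix.sub_apply, of_apply]; fun_prop
    · exact hdet.contDiffOn.inv fun X hX => hX
    · simp only [adjugate_apply]
      refine (contDiff_det k _ fun a b => ?_).contDiffOn
      by_cases ha : a = j
      · simp only [ha, updateRow_self]; exact contDiff_const
      · simp only [updateRow_ne ha]; exact hent _ _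
  have := isSubmanifold_of_chart k (entries (setK n)) {X | (1 + Matrix.of X).det ≠ 0}
    {X | (1 + Matrix.of X).det ≠ 0} (fun X i j => cay (Matrix.of X) i j)
    (fun X i j => cay (Matrix.of X) i j) T ?_ ?_ hopen hopen hcd hcd
    (fun X hX => det_one_add_cay _ hX) (fun X hX => det_one_add_cay _ hX)
    (fun X hX => cay_cay (Matrix.of X) hX) (fun X hX => cay_cay (Matrix.of X) hX) ?_
  · simpa [finrank_E] using this
  · refine ⟨_, 1, ⟨by simp, ?_⟩, fun _ _ => rfl⟩
    rw [Matrix.SpecialLinearGroup.coe_one, ← two_smul ℝ, det_smul, det_one]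
    positivity
  · intro A hA
    obtain ⟨h, hg⟩ := (mem_entries _ _).1 hA
    exact hg.2
  · intro X hX
    rw [mem_entries]
    have h1 : T (fun i j => cay (Matrix.of X) i j) = 0 ↔
        (cay (Matrix.of X))ᵀ + cay (Matrix.of X) = 0 := by
      constructor
      · intro h
        ext i j
        rcases le_total i j with hij | hij
        · exact congrFun h ⟨(i, j), hij⟩
        · exact (add_comm _ _).trans (congrFun h ⟨(j, i), hij⟩)
      · intro h
        funext p
        exact congrFun (congrFun h p.1.1) p.1.2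
    rw [h1, cay_skew _ hX]
    constructor
    · rintro ⟨h, hg⟩; exact hg.1
    · intro h
      refine ⟨?_, h, hX⟩
      have h2 : (1 + Matrix.of X)ᵀ * Matrix.of X = 1 + Matrix.of X := by
        rw [transpose_add, transpose_one, add_mul, one_mul, h, add_comm]
      have h3 := congrArg det h2
      rw [det_mul, det_transpose] at h3
      exact (mul_eq_left₀ hX).1 h3

theorem upper_bound (k : WithTop ℕ∞) (n : ℕ) (hn : 3 ≤ n) :
    lieExponent k n ≤ ((3 * ((n : ℝ) - 1) / (n - 2) : ℝ) : EReal) := by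
  obtain ⟨d₁, e₁, h₁⟩ := subm_B (n := n) k
  obtain ⟨d₂, e₂, h₂⟩ := subm_L (n := n) k
  obtain ⟨d₃, e₃, h₃⟩ := subm_K (n := n) k
  have c1 := card_le_pairs (n := n)
  have c2 := card_lt_pairs (n := n)
  have h : 3 * (n * n) ≤ 2 * (d₁ + d₂ + d₃) + n + 4 := by omega
  have h' : 3 * ((n : ℝ) * n) ≤ 2 * (d₁ + d₂ + d₃) + n + 4 := by exact_mod_cast h
  have hn' : (3 : ℝ) ≤ n := by exact_mod_cast hn
  refine le_trans (sInf_le ⟨_, _, _, d₁, d₂, d₃, h₁, h₂, h₃, tpp, by nlinarith, rfl⟩) ?_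
  rw [EReal.coe_le_coe_iff, div_le_div_iff₀ (by nlinarith) (by linarith)]
  nlinarith

end Pool.Agent.MP_9660fa_lc.H60
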